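import Pool.Agent.Lib.MP_216314_pr.D.Split

/-!
# The list of a closed orbit when the images of two points are exchanged
-/

set_option autoImplicit false

namespace FKD

open FKI Finset

variable {α : Type*}

open Classical in
/-- `none` instead of `r` -/
noncomputable def cut (r y : α) : Option α := if y = r then none else some y

theorem cut_self (r : α) : cut r r = none := by unfold cut; rw [if_pos rfl]

theorem cut_ne {r y : α} (h : y ≠ r) : cut r y = some y := by unfold cut; rw [if_neg h]

theorem cut_inj {r y z : α} (h : cut r y = cut r z) : y = z := by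
  by_cases h1 : y = r <;> by_cases h2 : z = r
  · rw [h1, h2]
  · rw [h1, cut_self, cut_ne h2] at h
    exact absurd h (by simp)
  · rw [h2, cut_self, cut_ne h1] at h
    exact absurd h (by simp)
  · rw [cut_ne h1, cut_ne h2] at h
    exact Option.some.inj h

theorem cut_ne_some (r y : α) : cut r y ≠ some r := by
  by_cases h1 : y = r
  · rw [h1, cut_self]; simp
  · rw [cut_ne h1]; simpa using h1

/-- the map `f` with a new point inserted in front of `r` -/
noncomputable def ext (f : α → α) (r : α) : Option α → Option α
  | none => some r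
  | some x => cut r (f x)

theorem ext_inj {f : α → α} (hf : Function.Injective f) (r : α) : Function.Injective (ext f r) := by
  intro x y h
  rcases x with _ | x <;> rcases y with _ | y
  · rfl
  · exact absurd h.symm (cut_ne_some r _)
  · exact absurd h (cut_ne_some r _)
  · rw [hf (cut_inj h)]

theorem ext_iter {f : α → α} (hP : Per f) (r : α) : ∀ i < Function.minimalPeriod f r,
    (ext f r)^[i] (some r) = some (f^[i] r) := by
  intro i
  induction i with
  | zero => intro _; rfl
  | succ i ih =>
    intro hi
    rw [Function.iterate_succ_apply', ih (by omega), Function.iterate_succ_apply']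
    show cut r (f (f^[i] r)) = _
    apply cut_ne
    intro h
    rw [← Function.iterate_succ_apply' f] at h
    have := iter_inj hi (per_pos hP r) (i := i + 1) (j := 0) (by simpa using h)
    omega

theorem ext_hits {f : α → α} (hP : Per f) (r : α) :
    Hits (ext f r) (some r) none (Function.minimalPeriod f r) := by
  have h0 := per_pos hP r
  constructor
  · obtain ⟨k, hk⟩ : ∃ k, Function.minimalPeriod f r = k + 1 := ⟨_, (Nat.sub_add_cancel h0).symm⟩
    rw [hk, Function.iterate_succ_apply', ext_iter hP r k (by omega)]
    show cut r (f (f^[k] r)) = _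
    rw [← Function.iterate_succ_apply' f, show k.succ = Function.minimalPeriod f r from hk.symm, iter_per]
    exact cut_self r
  · intro i hi
    rw [ext_iter hP r i hi]
    simp

theorem ext_run {f : α → α} (hP : Per f) (r : α) :
    run (ext f r) (some r) (Function.minimalPeriod f r) = (cyc f r).map some := by
  unfold cyc run
  rw [List.map_map]
  apply List.map_congr_left
  intro i hi
  rw [List.mem_range] at hi
  rw [ext_iter hP r i hi]
  rfl

theorem longer_some {c1 c2 : α} {D D' : List α}
    (h : Longer (some c1) (some c2) (D.map some) (D'.map some)) : Longer c1 c2 D D' := by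
  obtain ⟨A, M, B, x, y, hxy, e1, e2, hA, hM, hB⟩ := h
  have k : ∀ L : List α, (L.map some).filterMap id = L := by
    intro L
    induction L with
    | nil => rfl
    | cons a L ih => simp
  have f1 := congrArg (List.filterMap id) e1
  have f2 := congrArg (List.filterMap id) e2
  rw [k] at f1 f2
  have hm : ∀ {L : List (Option α)}, (∀ z ∈ L, z ≠ some c1 ∧ z ≠ some c2) →
      ∀ z ∈ L.filterMap id, z ≠ c1 ∧ z ≠ c2 := by
    intro L hL z hz
    rw [List.mem_filterMap] at hz
    obtain ⟨a, ha, hz⟩ := hz
    have ha' : a = some z := hz
    subst ha'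
    obtain ⟨h1, h2⟩ := hL _ ha
    exact ⟨fun h => h1 (by rw [h]), fun h => h2 (by rw [h])⟩
  rcases hxy with ⟨rfl, rfl⟩ | ⟨rfl, rfl⟩
  · refine ⟨A.filterMap id, M.filterMap id, B.filterMap id, c1, c2, Or.inl ⟨rfl, rfl⟩, ?_, ?_, hm hA, hm hM, hm hB⟩
    · rw [f1]; simp [List.filterMap_append]
    · rw [f2]; simp [List.filterMap_append]
  · refine ⟨A.filterMap id, M.filterMap id, B.filterMap id, c2, c1, Or.inr ⟨rfl, rfl⟩, ?_, ?_, hm hA, hm hM, hm hB⟩
    · rw [f1]; simp [List.filterMap_append]
    · rw [f2]; simp [List.filterMap_append]

/-- the loop of `r`, before and after the exchange -/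
theorem Swp.splice {f f' : α → α} {c1 c2 : α} (h : Swp f f' c1 c2) (r : α) :
    (c1 ∉ cyc f r ∧ c2 ∉ cyc f r ∧ cyc f' r = cyc f r) ∨
    Longer c1 c2 (cyc f r) (cyc f' r) ∨ Longer c1 c2 (cyc f' r) (cyc f r) := by
  have h3 : ∀ p : Option α, p ≠ some c1 → p ≠ some c2 → ext f' r p = ext f r p := by
    intro p h1 h2
    rcases p with _ | p
    · rfl
    · have : f' p = f p := h.h3 p (fun e => h1 (by rw [e])) (fun e => h2 (by rw [e]))
      show cut r (f' p) = cut r (f p)
      rw [this]
  have h1 : ext f' r (some c1) = ext f r (some c2) := by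
    show cut r (f' c1) = cut r (f c2)
    rw [h.h1]
  have h2 : ext f' r (some c2) = ext f r (some c1) := by
    show cut r (f' c2) = cut r (f c1)
    rw [h.h2]
  have := FKI.splice (ext_inj h.inj r) (ext_inj h.inj' r) (fun e => h.ne (Option.some.inj e)) h1 h2 h3
    (ext_hits h.per r) (ext_hits h.per' r) (by simp)
  rw [ext_run h.per, ext_run h.per'] at this
  have inj : Function.Injective (some : α → Option α) := Option.some_injective α
  rcases this with ⟨a1, a2, a3⟩ | a | a
  · left
    exact ⟨fun hm => a1 (List.mem_map_of_mem hm), fun hm => a2 (List.mem_map_of_mem hm),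
      List.map_injective_iff.2 inj a3⟩
  · right; left
    exact longer_some a
  · right; right
    exact longer_some a

end FKD
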