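import Pool.Agent.Lib.MP_216314_pr.Spl

/-!
# Orbits of injective maps with finite orbits
-/

set_option autoImplicit false

namespace FKD

open FKI Finset

variable {α : Type*}

/-- `z` is on the orbit of `p` -/
def Orb (f : α → α) (p z : α) : Prop := ∃ i : ℕ, f^[i] p = z

/-- every orbit is finite -/
def Per (f : α → α) : Prop := ∀ p, p ∈ Function.periodicPts f

/-- the orbit of `p` as a list starting at `p` -/
noncomputable def cyc (f : α → α) (p : α) : List α := run f p (Function.minimalPeriod f p)

theorem per_pos {f : α → α} (h : Per f) (p : α) : 0 < Function.minimalPeriod f p :=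
  Function.minimalPeriod_pos_of_mem_periodicPts (h p)

theorem iter_per (f : α → α) (p : α) : f^[Function.minimalPeriod f p] p = p :=
  Function.iterate_minimalPeriod

theorem iter_mod (f : α → α) (p : α) (i : ℕ) :
    f^[i % Function.minimalPeriod f p] p = f^[i] p :=
  Function.iterate_mod_minimalPeriod_eq

theorem orb_refl (f : α → α) (p : α) : Orb f p p := ⟨0, rfl⟩

theorem orb_trans {f : α → α} {p z w : α} (h1 : Orb f p z) (h2 : Orb f z w) : Orb f p w := by
  obtain ⟨i, rfl⟩ := h1
  obtain ⟨j, rfl⟩ := h2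
  exact ⟨j + i, Function.iterate_add_apply f j i p⟩

theorem orb_step (f : α → α) (p : α) : Orb f p (f p) := ⟨1, rfl⟩

theorem orb_symm {f : α → α} (h : Per f) {p z : α} (h1 : Orb f p z) : Orb f z p := by
  obtain ⟨i, rfl⟩ := h1
  have hN := per_pos h p
  set N := Function.minimalPeriod f p with hNd
  have h2 : i ≤ N * (i + 1) := by nlinarith
  refine ⟨N * (i + 1) - i, ?_⟩
  rw [← Function.iterate_add_apply, Nat.sub_add_cancel h2, Function.iterate_mul]
  exact Function.iterate_fixed (iter_per f p) (i + 1)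

theorem mem_cyc {f : α → α} (h : Per f) {p z : α} : z ∈ cyc f p ↔ Orb f p z := by
  unfold cyc
  rw [mem_run]
  constructor
  · rintro ⟨i, _, hi⟩
    exact ⟨i, hi⟩
  · rintro ⟨i, hi⟩
    exact ⟨i % Function.minimalPeriod f p, Nat.mod_lt _ (per_pos h p), by rw [iter_mod, hi]⟩

theorem iter_inj {f : α → α} {p : α} {i j : ℕ}
    (hi : i < Function.minimalPeriod f p) (hj : j < Function.minimalPeriod f p)
    (hij : f^[i] p = f^[j] p) : i = j :=
  Function.iterate_injOn_Iio_minimalPeriod hi hj hij

theorem cyc_nodup (f : α → α) (p : α) : (cyc f p).Nodup := by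
  unfold cyc run
  refine List.Nodup.map_on ?_ List.nodup_range
  intro x hx y hy hxy
  rw [List.mem_range] at hx hy
  exact iter_inj hx hy hxy

theorem cyc_cons {f : α → α} (h : Per f) (p : α) :
    cyc f p = p :: run f (f p) (Function.minimalPeriod f p - 1) := by
  have h1 := per_pos h p
  unfold cyc
  obtain ⟨k, hk⟩ : ∃ k, Function.minimalPeriod f p = k + 1 := ⟨_, (Nat.sub_add_cancel h1).symm⟩
  rw [hk, abs_run_succ]
  rfl

theorem per_orb {f : α → α} {p z : α} (h1 : Orb f p z) (h : Per f) :
    Function.minimalPeriod f z = Function.minimalPeriod f p := by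
  obtain ⟨i, rfl⟩ := h1
  exact Function.minimalPeriod_apply_iterate (h p) i

/-- sum over an orbit -/
noncomputable def osum (f : α → α) (φ : α → ℤ) (p : α) : ℤ := ((cyc f p).map φ).sum

theorem osum_eq [DecidableEq α] (f : α → α) (φ : α → ℤ) (p : α) :
    osum f φ p = ∑ z ∈ (cyc f p).toFinset, φ z := by
  unfold osum
  rw [List.sum_toFinset _ (cyc_nodup f p)]

theorem osum_orb {f : α → α} (h : Per f) (φ : α → ℤ) {p z : α} (h1 : Orb f p z) :
    osum f φ p = osum f φ z := by
  classical
  rw [osum_eq, osum_eq]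
  congr 1
  ext w
  rw [List.mem_toFinset, List.mem_toFinset, mem_cyc h, mem_cyc h]
  exact ⟨fun h2 => orb_trans (orb_symm h h1) h2, fun h2 => orb_trans h1 h2⟩

theorem sum_map_range (g : ℕ → ℤ) (n : ℕ) : ((List.range n).map g).sum = ∑ i ∈ range n, g i := by
  induction n with
  | zero => simp
  | succ n ih =>
    rw [List.range_succ, List.map_append, List.sum_append, ih, Finset.sum_range_succ]
    simp

theorem osum_range (f : α → α) (φ : α → ℤ) (p : α) :
    osum f φ p = ∑ i ∈ range (Function.minimalPeriod f p), φ (f^[i] p) := by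
  unfold osum cyc run
  rw [List.map_map, sum_map_range]
  rfl

/-- a finite closed set gives finite orbits -/
theorem per_of_closed {f : α → α} (hf : Function.Injective f) (C : α → Finset α)
    (h1 : ∀ p, p ∈ C p) (h2 : ∀ p, ∀ z ∈ C p, f z ∈ C p) : Per f := by
  intro p
  have hper : ∃ N : ℕ, 0 < N ∧ f^[N] p = p := by
    obtain ⟨i, j, hij, he⟩ := Finite.exists_ne_map_eq_of_infinite
      (fun i : ℕ => (⟨f^[i] p, abs_iter_mem (h2 p) (h1 p) i⟩ : {x // x ∈ C p}))
    have he' : f^[i] p = f^[j] p := by simpa using he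
    rcases lt_or_gt_of_ne hij with h1 | h1
    · exact ⟨j - i, by omega, abs_cancel hf h1.le he'⟩
    · exact ⟨i - j, by omega, abs_cancel hf h1.le he'.symm⟩
  obtain ⟨N, hN0, hN⟩ := hper
  exact ⟨N, hN0, hN⟩

end FKD
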