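import Pool.Agent.Lib.MP_216314_pr.D.Orb

/-!
# Orbits of two maps which differ by the exchange of the images of two points
-/

set_option autoImplicit false

namespace FKD

open FKI Finset

variable {α : Type*}

/-- `f'` is `f` with the images of `c1` and `c2` exchanged -/
structure Swp (f f' : α → α) (c1 c2 : α) : Prop where
  inj : Function.Injective f
  inj' : Function.Injective f'
  per : Per f
  per' : Per f'
  ne : c1 ≠ c2
  h1 : f' c1 = f c2
  h2 : f' c2 = f c1
  h3 : ∀ p, p ≠ c1 → p ≠ c2 → f' p = f p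

theorem Swp.flip {f f' : α → α} {c1 c2 : α} (h : Swp f f' c1 c2) : Swp f' f c1 c2 :=
  ⟨h.inj', h.inj, h.per', h.per, h.ne, h.h2.symm, h.h1.symm, fun p hp hp' => (h.h3 p hp hp').symm⟩

theorem Swp.comm {f f' : α → α} {c1 c2 : α} (h : Swp f f' c1 c2) : Swp f f' c2 c1 :=
  ⟨h.inj, h.inj', h.per, h.per', h.ne.symm, h.h2, h.h1, fun p hp hp' => h.h3 p hp' hp⟩

theorem Swp.closed {f f' : α → α} {c1 c2 : α} (h : Swp f f' c1 c2) {P : α → Prop}
    (hP : ∀ z, P z → P (f z)) (p1 : P c1) (p2 : P c2) {z : α} (hz : P z) : P (f' z) := by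
  by_cases e1 : z = c1
  · rw [e1, h.h1]; exact hP _ p2
  · by_cases e2 : z = c2
    · rw [e2, h.h2]; exact hP _ p1
    · rw [h.h3 z e1 e2]; exact hP _ hz

/-- splitting of an orbit -/
theorem Swp.same {f f' : α → α} {c1 c2 : α} (h : Swp f f' c1 c2) (ho : Orb f c1 c2) :
    ¬ Orb f' c1 c2 ∧ (∀ z, Orb f c1 z ↔ Orb f' c1 z ∨ Orb f' c2 z) ∧
      ∀ φ : α → ℤ, osum f φ c1 = osum f' φ c1 + osum f' φ c2 := by
  classical
  obtain ⟨i0, hi0⟩ := ho
  set N := Function.minimalPeriod f c1 with hN
  have hNpos : 0 < N := per_pos h.per c1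
  obtain ⟨i, hiN, hi⟩ : ∃ i < N, f^[i] c1 = c2 :=
    ⟨i0 % N, Nat.mod_lt _ hNpos, by rw [hN, iter_mod, hi0]⟩
  have hi0 : 0 < i := by
    rcases Nat.eq_zero_or_pos i with h0 | h0
    · subst h0; exact absurd hi h.ne
    · exact h0
  have n1 : ∀ j, 0 < j → j < N → f^[j] c1 ≠ c1 := fun j h0 hj he =>
    (iter_inj hj hNpos (by simpa using he) ▸ h0).false
  have n2 : ∀ j, j < N → j ≠ i → f^[j] c1 ≠ c2 := fun j hj hne he =>
    hne (iter_inj hj hiN (he.trans hi.symm))
  -- Claim A
  have cA : ∀ j, 1 ≤ j → j ≤ i → f'^[j] c2 = f^[j] c1 := by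
    intro j hj
    induction j, hj using Nat.le_induction with
    | base => intro _; exact h.h2
    | succ j hj ih =>
      intro hji
      rw [Function.iterate_succ_apply', Function.iterate_succ_apply', ih (by omega)]
      exact h.h3 _ (n1 j (by omega) (by omega)) (n2 j (by omega) (by omega))
  have cB : ∀ j, 1 ≤ j → j ≤ N - i → f'^[j] c1 = f^[i + j] c1 := by
    intro j hj
    induction j, hj using Nat.le_induction with
    | base =>
      intro _
      show f' c1 = f^[i + 1] c1
      rw [Function.iterate_succ_apply', hi]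
      exact h.h1
    | succ j hj ih =>
      intro hji
      rw [Function.iterate_succ_apply', ih (by omega)]
      rw [show i + (j + 1) = (i + j) + 1 from rfl, Function.iterate_succ_apply']
      exact h.h3 _ (n1 _ (by omega) (by omega)) (n2 _ (by omega) (by omega))
  have pB : f'^[N - i] c1 = c1 := by
    rw [cB (N - i) (by omega) le_rfl, Nat.add_sub_cancel' hiN.le]
    exact iter_per f c1
  have hno : ¬ Orb f' c1 c2 := by
    rintro ⟨k, hk⟩
    have hk' : f'^[k % (N - i)] c1 = c2 := by
      have e := (show Function.IsPeriodicPt f' (N - i) c1 from pB).iterate_mod_apply k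
      rw [e, hk]
    rcases Nat.eq_zero_or_pos (k % (N - i)) with h0 | h0
    · rw [h0] at hk'
      exact h.ne hk'
    · have h1 : k % (N - i) < N - i := Nat.mod_lt _ (by omega)
      rw [cB _ h0 h1.le] at hk'
      exact n2 _ (by omega) (by omega) hk'
  have hcl : ∀ z, Orb f c1 z → Orb f c1 (f' z) := fun z hz =>
    h.closed (P := Orb f c1) (fun z hz => orb_trans hz (orb_step f z)) (orb_refl f c1) ⟨i, hi⟩ hz
  have hiff : ∀ z, Orb f c1 z ↔ Orb f' c1 z ∨ Orb f' c2 z := by
    intro z
    constructor
    · rintro ⟨j0, hj0⟩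
      obtain ⟨j, hjN, hj⟩ : ∃ j < N, f^[j] c1 = z :=
        ⟨j0 % N, Nat.mod_lt _ hNpos, by rw [hN, iter_mod, hj0]⟩
      rcases Nat.eq_zero_or_pos j with h0 | h0
      · subst h0
        left
        exact ⟨0, hj⟩
      · rcases le_or_gt j i with h1 | h1
        · right
          exact ⟨j, by rw [cA j h0 h1, hj]⟩
        · left
          refine ⟨j - i, ?_⟩
          rw [cB _ (by omega) (by omega), Nat.add_sub_cancel' h1.le, hj]
    · rintro (⟨k, rfl⟩ | ⟨k, rfl⟩)
      · induction k with
        | zero => exact orb_refl f c1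
        | succ k ih => rw [Function.iterate_succ_apply']; exact hcl _ ih
      · induction k with
        | zero => exact ⟨i, hi⟩
        | succ k ih => rw [Function.iterate_succ_apply']; exact hcl _ ih
  refine ⟨hno, hiff, fun φ => ?_⟩
  rw [osum_eq, osum_eq, osum_eq, ← Finset.sum_union]
  · congr 1
    ext z
    simp only [List.mem_toFinset, Finset.mem_union, mem_cyc h.per, mem_cyc h.per']
    exact hiff z
  · rw [Finset.disjoint_left]
    intro z hz1 hz2
    simp only [List.mem_toFinset, mem_cyc h.per'] at hz1 hz2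
    exact hno (orb_trans hz1 (orb_symm h.per' hz2))

/-- merging of two orbits -/
theorem Swp.diff {f f' : α → α} {c1 c2 : α} (h : Swp f f' c1 c2) (ho : ¬ Orb f c1 c2) :
    Orb f' c1 c2 := by
  set N := Function.minimalPeriod f c2 with hN
  have hNpos : 0 < N := per_pos h.per c2
  have key : ∀ j, 1 ≤ j → j ≤ N → f'^[j] c1 = f^[j] c2 := by
    intro j hj
    induction j, hj using Nat.le_induction with
    | base => intro _; exact h.h1
    | succ j hj ih =>
      intro hji
      rw [Function.iterate_succ_apply', Function.iterate_succ_apply', ih (by omega)]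
      apply h.h3
      · intro he
        exact ho (orb_symm h.per ⟨j, he⟩)
      · intro he
        have := iter_inj (f := f) (p := c2) (i := j) (j := 0) (by omega) hNpos (by simpa using he)
        omega
  exact ⟨N, by rw [key N hNpos le_rfl]; exact iter_per f c2⟩

theorem Swp.free_iter {f f' : α → α} {c1 c2 : α} (h : Swp f f' c1 c2) {p : α}
    (n1 : ¬ Orb f p c1) (n2 : ¬ Orb f p c2) (i : ℕ) : f'^[i] p = f^[i] p := by
  induction i with
  | zero => rfl
  | succ i ih =>
    rw [Function.iterate_succ_apply', Function.iterate_succ_apply', ih]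
    exact h.h3 _ (fun he => n1 ⟨i, he⟩) (fun he => n2 ⟨i, he⟩)

/-- orbits not meeting the two points do not change -/
theorem Swp.free {f f' : α → α} {c1 c2 : α} (h : Swp f f' c1 c2) {p : α}
    (n1 : ¬ Orb f p c1) (n2 : ¬ Orb f p c2) :
    cyc f' p = cyc f p ∧ (∀ z, Orb f' p z ↔ Orb f p z) := by
  have key := h.free_iter n1 n2
  have hmp : Function.minimalPeriod f' p = Function.minimalPeriod f p := by
    rw [Function.minimalPeriod_eq_minimalPeriod_iff]
    intro n
    unfold Function.IsPeriodicPt Function.IsFixedPt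
    rw [key n]
  constructor
  · unfold cyc run
    rw [hmp]
    apply List.map_congr_left
    intro i _
    exact key i
  · intro z
    unfold Orb
    simp only [key]

end FKD
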